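import Pool.Agent.H.MP_09c931_an.Defs

namespace Pool.Agent.H.MP_09c931_an

open Topology UniformSpace Filter TensorProduct Set

noncomputable instance (A : Type) [NonUnitalRing A] [Module ℂ A] [IsScalarTower ℂ A A]
    [SMulCommClass ℂ A A] : Ring (Env A) :=
  { (inferInstance : AddCommGroup (Env A)),
    (Algebra.TensorProduct.instRing : Ring (Up A ⊗[ℂ] (Up A)ᵐᵒᵖ)) with }

section PN

variable {E F : Type} [AddCommGroup E] [Module ℂ E] [AddCommGroup F] [Module ℂ F]

lemma PT_ind {P : PT E F → Prop} (u : PT E F) (h0 : P 0) (h1 : ∀ x y, P (tm x y))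
    (h2 : ∀ u v, P u → P v → P (u + v)) : P u :=
  TensorProduct.induction_on (motive := P) u h0 h1 h2

/-- projective seminorm -/
noncomputable def pN (p : Seminorm ℂ E) (q : Seminorm ℂ F) : Seminorm ℂ (PT E F) :=
  sSup {r | ∀ x y, r (tm x y) ≤ p x * q y}

lemma pN_bdd (p : Seminorm ℂ E) (q : Seminorm ℂ F) :
    BddAbove {r : Seminorm ℂ (PT E F) | ∀ x y, r (tm x y) ≤ p x * q y} := by
  rw [Seminorm.bddAbove_iff, bddAbove_pi]
  intro u
  have : ∃ C : ℝ, ∀ r : Seminorm ℂ (PT E F), (∀ x y, r (tm x y) ≤ p x * q y) → r u ≤ C := by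
    induction u using PT_ind with
    | h0 => exact ⟨0, fun r _ => by simp⟩
    | h1 x y => exact ⟨_, fun r hr => hr x y⟩
    | h2 u v hu hv =>
      obtain ⟨C, hC⟩ := hu
      obtain ⟨D, hD⟩ := hv
      exact ⟨C + D, fun r hr => (map_add_le_add r u v).trans (add_le_add (hC r hr) (hD r hr))⟩
  obtain ⟨C, hC⟩ := this
  refine ⟨C, ?_⟩
  rintro _ ⟨_, ⟨r, hr, rfl⟩, rfl⟩
  exact hC r hr

lemma pN_tm (p : Seminorm ℂ E) (q : Seminorm ℂ F) (x : E) (y : F) :
    pN p q (tm x y) ≤ p x * q y := by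
  rw [pN, Seminorm.sSup_apply (pN_bdd p q)]
  haveI : Nonempty {r : Seminorm ℂ (PT E F) | ∀ x y, r (tm x y) ≤ p x * q y} :=
    ⟨⟨0, fun x y => by simpa using mul_nonneg (apply_nonneg p x) (apply_nonneg q y)⟩⟩
  exact ciSup_le fun r => r.2 x y

lemma le_pN (p : Seminorm ℂ E) (q : Seminorm ℂ F) (r : Seminorm ℂ (PT E F)) {C : ℝ} (hC : 0 ≤ C)
    (h : ∀ x y, r (tm x y) ≤ C * (p x * q y)) (u : PT E F) : r u ≤ C * pN p q u := by
  have key : ∀ D : ℝ, C < D → r u ≤ D * pN p q u := by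
    intro D hD
    have hD0 : 0 < D := hC.trans_lt hD
    have h1 : (NNReal.mk D⁻¹ (inv_pos.2 hD0).le) • r ≤ pN p q := by
      refine le_csSup (pN_bdd p q) fun x y => ?_
      show D⁻¹ * r (tm x y) ≤ _
      rw [inv_mul_le_iff₀ hD0]
      exact (h x y).trans (mul_le_mul_of_nonneg_right hD.le
        (mul_nonneg (apply_nonneg p x) (apply_nonneg q y)))
    have h2 : D⁻¹ * r u ≤ pN p q u := h1 u
    rwa [inv_mul_le_iff₀ hD0] at h2
  have ht : Tendsto (fun D : ℝ => D * pN p q u) (𝓝[>] C) (𝓝 (C * pN p q u)) :=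
    ((continuous_id.mul continuous_const).tendsto C).mono_left nhdsWithin_le_nhds
  exact ge_of_tendsto ht (eventually_mem_nhdsWithin.mono key)

lemma norm_le_pN {G : Type} [SeminormedAddCommGroup G] [NormedSpace ℂ G] (p : Seminorm ℂ E)
    (q : Seminorm ℂ F) (f : PT E F →ₗ[ℂ] G) (h : ∀ x y, ‖f (tm x y)‖ ≤ p x * q y) (u : PT E F) :
    ‖f u‖ ≤ pN p q u := by
  have := le_pN p q ((normSeminorm ℂ G).comp f) zero_le_one (fun x y => by simpa using h x y) u
  simpa using this

variable [TopologicalSpace E] [TopologicalSpace F]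

lemma PT_with : WithSeminorms (fam E F) := ⟨rfl⟩

instance : IsUniformAddGroup (PT E F) := isUniformAddGroup_of_addCommGroup

instance : ContinuousSMul ℂ (PT E F) := PT_with.continuousSMul

lemma pN_cont {p : Seminorm ℂ E} {q : Seminorm ℂ F} (hp : Continuous p) (hq : Continuous q) :
    Continuous (pN p q) :=
  PT_with.continuous_seminorm ⟨pN p q, p, q, hp, hq, pN_tm p q⟩

end PN

section Compl

variable {G : Type} [AddCommGroup G] [Module ℂ G] [UniformSpace G] [IsUniformAddGroup G]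

lemma ball_nhds {N : Seminorm ℂ G} (hN : Continuous N) {ε : ℝ} (hε : 0 < ε) :
    {y | N y < ε} ∈ 𝓝 (0 : G) :=
  (isOpen_lt hN continuous_const).mem_nhds (by simpa using hε)

lemma approx {N : Seminorm ℂ G} (hN : Continuous N) (ξ : Completion G) {ε : ℝ} (hε : 0 < ε) :
    ∃ w : G, ξ ∈ closure ((↑) '' {y : G | N (y - w) < ε}) := by
  have h1 := Completion.isDenseInducing_coe.closure_image_mem_nhds (ball_nhds hN hε)
  rw [Completion.coe_zero] at h1
  have h2 : (fun η => ξ - η) ⁻¹' closure ((↑) '' {y : G | N y < ε}) ∈ 𝓝 ξ :=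
    (continuous_const.sub continuous_id).continuousAt.preimage_mem_nhds (by simpa using h1)
  obtain ⟨w, hw⟩ := Completion.denseRange_coe.mem_nhds h2
  refine ⟨w, ?_⟩
  have := map_mem_closure (f := fun η => η + (w : Completion G))
    (t := (↑) '' {y : G | N (y - w) < ε}) (continuous_id.add continuous_const) hw (by
      rintro _ ⟨y, hy, rfl⟩
      exact ⟨y + w, by simpa using hy, Completion.coe_add y w⟩)
  simpa using this

lemma pass {H : Type} [TopologicalSpace H] {f : Completion G → H} (hf : Continuous f) {T : Set G}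
    {C : Set H} (hC : IsClosed C) {ξ : Completion G} (hξ : ξ ∈ closure ((↑) '' T))
    (h : ∀ y ∈ T, f y ∈ C) : f ξ ∈ C :=
  hC.closure_subset (map_mem_closure hf hξ (by rintro _ ⟨y, hy, rfl⟩; exact h y hy))

lemma ext_coe {H : Type} [AddCommGroup H] [Module ℂ H] [UniformSpace H] [IsUniformAddGroup H]
    [T0Space H] (f : G →ₗ[ℂ] H) (hf : Continuous f) (y : G) : Completion.extension f y = f y :=
  Completion.extension_coe (uniformContinuous_addMonoidHom_of_continuous hf) y

lemma cont_of_le {H : Type} [SeminormedAddCommGroup H] [NormedSpace ℂ H] (f : G →ₗ[ℂ] H)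
    {N : Seminorm ℂ G} (hN : Continuous N) (h : ∀ y, ‖f y‖ ≤ N y) : Continuous f := by
  refine continuous_of_continuousAt_zero f ?_
  rw [ContinuousAt, map_zero, NormedAddGroup.tendsto_nhds_zero]
  intro ε hε
  filter_upwards [ball_nhds hN hε] with y hy using (h y).trans_lt hy

end Compl

end Pool.Agent.H.MP_09c931_an
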