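import Pool.Agent.H.MP_09c931_an.A

namespace Pool.Agent.H.MP_09c931_an

open Topology UniformSpace Filter TensorProduct Set BoundedContinuousFunction

/-- bounded sequences tending to zero along a free ultrafilter -/
def A0 : NonUnitalSubalgebra ℂ (ℕ →ᵇ ℂ) where
  carrier := {f | Tendsto f (hyperfilter ℕ) (𝓝 0)}
  add_mem' := fun {f g} hf hg => by
    have := Tendsto.add hf hg
    rw [add_zero] at this
    exact this
  zero_mem' := tendsto_const_nhds
  smul_mem' := fun c f hf => by simpa using Tendsto.const_smul hf c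
  mul_mem' := fun {f g} hf hg => by
    have := Tendsto.mul hf hg
    rw [mul_zero] at this
    exact this

lemma A0_closed : IsClosed (A0 : Set (ℕ →ᵇ ℂ)) := by
  refine isClosed_of_closure_subset fun f hf => ?_
  show Tendsto f (hyperfilter ℕ) (𝓝 0)
  rw [NormedAddGroup.tendsto_nhds_zero]
  intro ε hε
  obtain ⟨g, hg, hfg⟩ := Metric.mem_closure_iff.1 hf (ε / 2) (half_pos hε)
  filter_upwards [NormedAddGroup.tendsto_nhds_zero.1 hg (ε / 2) (half_pos hε)] with n hn
  have := (dist_coe_le_dist (f := f) (g := g) n).trans_lt hfg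
  rw [dist_eq_norm] at this
  calc ‖f n‖ = ‖(f n - g n) + g n‖ := by simp
    _ ≤ ‖f n - g n‖ + ‖g n‖ := norm_add_le _ _
    _ < ε := by linarith

/-- the Banach algebra -/
def B : Type := A0

noncomputable instance : NonUnitalNormedCommRing B := inferInstanceAs (NonUnitalNormedCommRing A0)
noncomputable instance : Module ℂ B := inferInstanceAs (Module ℂ A0)
noncomputable instance : NormedSpace ℂ B :=
  ⟨fun c a => norm_smul_le c (Subtype.val a : ℕ →ᵇ ℂ)⟩
instance : IsScalarTower ℂ B B :=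
  ⟨fun c a b => Subtype.ext (smul_assoc c (Subtype.val a : ℕ →ᵇ ℂ) (Subtype.val b : ℕ →ᵇ ℂ))⟩
instance : SMulCommClass ℂ B B :=
  ⟨fun c a b => Subtype.ext (smul_comm c (Subtype.val a : ℕ →ᵇ ℂ) (Subtype.val b : ℕ →ᵇ ℂ))⟩
instance : CompleteSpace B := A0_closed.completeSpace_coe

/-- the underlying sequence -/
def B.v (b : B) : ℕ →ᵇ ℂ := Subtype.val b

lemma B.ext {a b : B} (h : ∀ n, a.v n = b.v n) : a = b :=
  Subtype.ext (BoundedContinuousFunction.ext h)
lemma B.tend (b : B) : Tendsto b.v (hyperfilter ℕ) (𝓝 0) := Subtype.property b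
@[simp] lemma B.v_add (a b : B) : (a + b).v = a.v + b.v := rfl
@[simp] lemma B.v_sub (a b : B) : (a - b).v = a.v - b.v := rfl
@[simp] lemma B.v_neg (a : B) : (-a).v = -a.v := rfl
@[simp] lemma B.v_mul (a b : B) : (a * b).v = a.v * b.v := rfl
@[simp] lemma B.v_smul (c : ℂ) (a : B) : (c • a).v = c • a.v := rfl
@[simp] lemma B.v_zero : (0 : B).v = 0 := rfl
lemma B.norm_v (a : B) : ‖a.v‖ = ‖a‖ := rfl
lemma B.norm_apply_le (a : B) (n : ℕ) : ‖a.v n‖ ≤ ‖a‖ := a.v.norm_coe_le_norm n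
lemma B.norm_le (a : B) {C : ℝ} (hC : 0 ≤ C) (h : ∀ n, ‖a.v n‖ ≤ C) : ‖a‖ ≤ C :=
  (BoundedContinuousFunction.norm_le hC).2 h

/-- indicator as a bounded function -/
noncomputable def ind (S : Set ℕ) : ℕ →ᵇ ℂ :=
  ofNormedAddCommGroupDiscrete (S.indicator 1) 1 fun n => by
    by_cases h : n ∈ S <;> simp [h]

lemma ind_apply (S : Set ℕ) (n : ℕ) : ind S n = S.indicator 1 n := rfl

/-- indicator of a small set -/
noncomputable def chi (S : Set ℕ) (hS : S ∉ hyperfilter ℕ) : B :=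
  (⟨ind S, by
    show Tendsto _ _ _
    refine tendsto_const_nhds.congr' ?_
    filter_upwards [Ultrafilter.compl_mem_iff_notMem.2 hS] with n hn
    simp [ind_apply, show n ∉ S from hn]⟩ : A0)

lemma chi_apply (S : Set ℕ) (hS : S ∉ hyperfilter ℕ) (n : ℕ) :
    (chi S hS).v n = S.indicator 1 n := rfl

lemma chi_idem (S : Set ℕ) (hS : S ∉ hyperfilter ℕ) : chi S hS * chi S hS = chi S hS :=
  B.ext fun n => by
    simp only [B.v_mul, BoundedContinuousFunction.coe_mul, Pi.mul_apply, chi_apply]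
    by_cases h : n ∈ S <;> simp [h]

lemma small (f : B) (φ : ℂ → ℝ) (hφ : Continuous φ) (h0 : φ 0 = 0) {M : ℝ} (hM : 0 < M) :
    {n | M < φ (f.v n)} ∉ hyperfilter ℕ := by
  rw [← Ultrafilter.compl_mem_iff_notMem]
  have : Tendsto (fun n => φ (f.v n)) (hyperfilter ℕ) (𝓝 0) := h0 ▸ (hφ.tendsto 0).comp f.tend
  filter_upwards [this.eventually (gt_mem_nhds hM)] with n hn
  simpa using hn.le

lemma half_step (f : B) {M : ℝ} (hM : 0 < M) (h : ∀ n, |(f.v n).re| ≤ 2 * M ∧ |(f.v n).im| ≤ 2 * M) :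
    ∃ s ∈ Submodule.span ℂ {e : B | e * e = e},
      ∀ n, |((f - s).v n).re| ≤ M ∧ |((f - s).v n).im| ≤ M := by
  have h1 := small f Complex.re Complex.continuous_re rfl hM
  have h2 := small f (fun z => -z.re) Complex.continuous_re.neg (by simp) hM
  have h3 := small f Complex.im Complex.continuous_im rfl hM
  have h4 := small f (fun z => -z.im) Complex.continuous_im.neg (by simp) hM
  have hm : ∀ S hS, chi S hS ∈ Submodule.span ℂ {e : B | e * e = e} := fun S hS =>
    Submodule.subset_span (chi_idem S hS)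
  refine ⟨(M : ℂ) • (chi _ h1 - chi _ h2) + ((M : ℂ) * Complex.I) • (chi _ h3 - chi _ h4),
    add_mem (Submodule.smul_mem _ _ (sub_mem (hm _ _) (hm _ _)))
      (Submodule.smul_mem _ _ (sub_mem (hm _ _) (hm _ _))), fun n => ?_⟩
  obtain ⟨ha, hb⟩ := h n
  rw [abs_le] at ha hb
  simp only [B.v_sub, B.v_add, B.v_smul, BoundedContinuousFunction.coe_sub,
    BoundedContinuousFunction.coe_add, BoundedContinuousFunction.coe_smul, Pi.sub_apply,
    Pi.add_apply, chi_apply, smul_eq_mul, Set.indicator_apply, mem_setOf_eq, Pi.one_apply, abs_le]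
  split_ifs <;> simp <;> refine ⟨⟨?_, ?_⟩, ?_, ?_⟩ <;> linarith

lemma dense_idem (f : B) {ε : ℝ} (hε : 0 < ε) :
    ∃ s ∈ Submodule.span ℂ {e : B | e * e = e}, ‖f - s‖ < ε := by
  have key : ∀ k : ℕ, ∃ s ∈ Submodule.span ℂ {e : B | e * e = e},
      ∀ n, |((f - s).v n).re| ≤ (‖f‖ + 1) * (1 / 2) ^ k ∧
        |((f - s).v n).im| ≤ (‖f‖ + 1) * (1 / 2) ^ k := by
    intro k
    induction k with
    | zero =>
      refine ⟨0, zero_mem _, fun n => ?_⟩
      have := f.norm_apply_le n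
      have h1 := Complex.abs_re_le_norm (f.v n)
      have h2 := Complex.abs_im_le_norm (f.v n)
      simp only [sub_zero, pow_zero, mul_one]
      constructor <;> linarith
    | succ k ih =>
      obtain ⟨s, hs, h⟩ := ih
      obtain ⟨t, ht, h'⟩ := half_step (f - s) (M := (‖f‖ + 1) * (1 / 2) ^ (k + 1)) (by positivity)
        (fun n => by
          have e : 2 * ((‖f‖ + 1) * (1 / 2 : ℝ) ^ (k + 1)) = (‖f‖ + 1) * (1 / 2) ^ k := by ring
          rw [e]; exact h n)
      exact ⟨s + t, add_mem hs ht, by simpa only [sub_add_eq_sub_sub] using h'⟩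
  obtain ⟨k, hk⟩ := exists_pow_lt_of_lt_one (show 0 < ε / (2 * (‖f‖ + 1)) by positivity)
    (show (1 / 2 : ℝ) < 1 by norm_num)
  obtain ⟨s, hs, h⟩ := key k
  refine ⟨s, hs, lt_of_le_of_lt (B.norm_le _ (C := 2 * (‖f‖ + 1) * (1 / 2) ^ k) (by positivity)
    fun n => ?_) ?_⟩
  · have := Complex.norm_le_abs_re_add_abs_im ((f - s).v n)
    linarith [(h n).1, (h n).2]
  · rwa [lt_div_iff₀' (by positivity)] at hk

/-- the Arens–Michael algebra -/
abbrev AA : Type := ℝ → B

lemma AA_am : ArensMichael AA := by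
  refine ⟨⟨inferInstance, inferInstance, inferInstance, inferInstance⟩, inferInstance,
    _, _, withSeminorms_pi (fun _ : ℝ => norm_withSeminorms ℂ B), fun i a b => ?_⟩
  exact norm_mul_le (a i.1) (b i.1)

lemma AA_nm : ¬ TopologicalSpace.MetrizableSpace AA := by
  intro h
  obtain ⟨U, hU⟩ := (𝓝 (0 : AA)).exists_antitone_basis
  have : ∀ n, ∃ F : Set ℝ, F.Finite ∧ ∀ a : AA, (∀ d ∈ F, a d = 0) → a ∈ U n := by
    intro n
    have := hU.mem n
    rw [nhds_pi, Filter.mem_pi] at this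
    obtain ⟨F, hF, t, ht, hsub⟩ := this
    exact ⟨F, hF, fun a ha => hsub fun d hd => ha d hd ▸ mem_of_mem_nhds (ht d)⟩
  choose F hF hFU using this
  have hc : (⋃ n, F n).Countable := countable_iUnion fun n => (hF n).countable
  obtain ⟨d, hd⟩ : ∃ d, d ∉ ⋃ n, F n := by
    by_contra hcon
    push Not at hcon
    exact Cardinal.not_countable_real (hc.mono fun d _ => hcon d)
  have hs : ({0} : Set ℕ) ∉ hyperfilter ℕ := (finite_singleton 0).notMem_hyperfilter
  have hmem : ∀ n, (Pi.single d (chi {0} hs) : AA) ∈ U n := fun n => hFU n _ fun d' hd' =>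
    Pi.single_eq_of_ne (fun e : d' = d => hd (mem_iUnion.2 ⟨n, e ▸ hd'⟩)) _
  have h0 : (Pi.single d (chi {0} hs) : AA) = 0 := by
    by_contra hne
    obtain ⟨n, -, hn⟩ := hU.toHasBasis.mem_iff.1 (isOpen_compl_singleton.mem_nhds (Ne.symm hne))
    exact hn (hmem n) rfl
  have := congrArg (fun a : AA => (a d).v 0) h0
  simp [chi_apply] at this

end Pool.Agent.H.MP_09c931_an
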