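import Pool.Agent.H.MP_09c931_an.B

namespace Pool.Agent.H.MP_09c931_an

open Topology UniformSpace Filter TensorProduct Set MulOpposite

/-- the unitization of the example -/
abbrev U : Type := Up AA

/-- coordinates -/
noncomputable def co : U →ₗ[ℂ] ℂ × AA where
  toFun z := ((Unitization.toProd z).1, (Unitization.toProd z).2)
  map_add' _ _ := rfl
  map_smul' _ _ := rfl

lemma co_ind : IsUniformInducing co := ⟨rfl⟩

lemma co_inj : Function.Injective co := fun _ _ h =>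
  Unitization.ext (congrArg Prod.fst h) (congrArg Prod.snd h)

lemma co_surj : Function.Surjective co := fun z => ⟨Unitization.mk z, rfl⟩

instance : IsUniformAddGroup U := co_ind.isUniformAddGroup co
instance : CompleteSpace U := (co_ind.completeSpace_congr co_surj).2 inferInstance
instance : T2Space U := (IsEmbedding.mk co_ind.isInducing co_inj).t2Space

lemma co_mul (x y : U) : co (x * y) =
    ((co x).1 * (co y).1, (co x).1 • (co y).2 + (co y).1 • (co x).2 + (co x).2 * (co y).2) := rfl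

lemma co_one : co 1 = (1, 0) := rfl

lemma U_comm (x y : U) : x * y = y * x := co_inj <| by
  rw [co_mul, co_mul, mul_comm (co x).1, mul_comm (co x).2, add_comm ((co x).1 • _)]

/-- seminorms of the unitization -/
noncomputable def qF (F : Finset ℝ) : Seminorm ℂ U :=
  Seminorm.of (𝕜 := ℂ) (fun z => ‖(co z).1‖ + ∑ d ∈ F, ‖(co z).2 d‖)
    (fun x y => by
      have h1 := norm_add_le (co x).1 (co y).1
      have h2 : ∑ d ∈ F, ‖(co x).2 d + (co y).2 d‖ ≤ ∑ d ∈ F, (‖(co x).2 d‖ + ‖(co y).2 d‖) :=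
        Finset.sum_le_sum fun d _ => norm_add_le _ _
      rw [Finset.sum_add_distrib] at h2
      simp only [map_add, Prod.fst_add, Prod.snd_add, Pi.add_apply]
      linarith)
    (fun c x => by simp [norm_smul, mul_add, Finset.mul_sum])

lemma qF_apply (F : Finset ℝ) (z : U) : qF F z = ‖(co z).1‖ + ∑ d ∈ F, ‖(co z).2 d‖ := rfl

lemma qF_one (F : Finset ℝ) : qF F 1 = 1 := by simp [qF_apply, co_one]

lemma qF_cont (F : Finset ℝ) : Continuous (qF F) := by
  have := co_ind.uniformContinuous.continuous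
  exact (continuous_fst.comp this).norm.add (continuous_finset_sum F fun d _ =>
    ((continuous_apply d).comp (continuous_snd.comp this)).norm)

lemma qF_mono {F G : Finset ℝ} (h : F ⊆ G) (z : U) : qF F z ≤ qF G z :=
  add_le_add le_rfl (Finset.sum_le_sum_of_subset_of_nonneg h fun _ _ _ => norm_nonneg _)

lemma qF_mul (F : Finset ℝ) (x y : U) : qF F (x * y) ≤ qF F x * qF F y := by
  rw [qF_apply, qF_apply, qF_apply, co_mul]
  have h : ∀ d ∈ F, ‖((co x).1 • (co y).2 + (co y).1 • (co x).2 + (co x).2 * (co y).2) d‖ ≤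
      ‖(co x).1‖ * ‖(co y).2 d‖ + ‖(co y).1‖ * ‖(co x).2 d‖ +
        ‖(co x).2 d‖ * ∑ e ∈ F, ‖(co y).2 e‖ := fun d hd => by
    refine (norm_add₃_le).trans (add_le_add (add_le_add (norm_smul_le (co x).1 ((co y).2 d))
      (norm_smul_le (co y).1 ((co x).2 d)))
      ((norm_mul_le _ _).trans (mul_le_mul_of_nonneg_left ?_ (norm_nonneg _))))
    exact Finset.single_le_sum (f := fun e => ‖(co y).2 e‖) (fun _ _ => norm_nonneg _) hd
  have h2 := Finset.sum_le_sum h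
  rw [Finset.sum_add_distrib, Finset.sum_add_distrib, ← Finset.mul_sum, ← Finset.mul_sum,
    ← Finset.sum_mul] at h2
  simp only [norm_mul]
  nlinarith

lemma up_nhds {W : Set U} (hW : W ∈ 𝓝 0) : ∃ F δ, 0 < δ ∧ ∀ z, qF F z < δ → z ∈ W := by
  rw [co_ind.isInducing.nhds_eq_comap, map_zero, mem_comap] at hW
  obtain ⟨V, hV, hVW⟩ := hW
  obtain ⟨V1, h1, V2, h2, h12⟩ := mem_nhds_prod_iff.1 hV
  rw [nhds_pi, Filter.mem_pi] at h2
  obtain ⟨F, hF, t, ht, hsub⟩ := h2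
  have h3 : ∀ᶠ δ : ℝ in 𝓝[>] 0, ∀ d ∈ F, Metric.ball 0 δ ⊆ t d :=
    (eventually_all_finite hF).2 fun d _ =>
      (eventually_ball_subset (ht d)).filter_mono nhdsWithin_le_nhds
  have h4 : ∀ᶠ δ : ℝ in 𝓝[>] 0, Metric.ball 0 δ ⊆ V1 :=
    (eventually_ball_subset h1).filter_mono nhdsWithin_le_nhds
  obtain ⟨δ, ⟨h5, h6⟩, hδ⟩ := ((h3.and h4).and eventually_mem_nhdsWithin).exists
  refine ⟨hF.toFinset, δ, hδ, fun z hz => hVW (h12 ⟨h6 ?_, hsub fun d hd => h5 d hd ?_⟩)⟩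
  · rw [mem_ball_zero_iff]
    have : 0 ≤ ∑ d ∈ hF.toFinset, ‖(co z).2 d‖ := Finset.sum_nonneg fun _ _ => norm_nonneg _
    rw [qF_apply] at hz
    linarith
  · rw [mem_ball_zero_iff]
    have := Finset.single_le_sum (f := fun e => ‖(co z).2 e‖) (fun _ _ => norm_nonneg _)
      (hF.mem_toFinset.2 hd)
    rw [qF_apply] at hz
    linarith [norm_nonneg (co z).1]

lemma scale {E : Type} [AddCommGroup E] [Module ℂ E] (p q : Seminorm ℂ E) {δ : ℝ} (hδ : 0 < δ)
    (h : ∀ z, q z < δ → p z < 1) (z : E) : p z ≤ δ⁻¹ * q z := by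
  refine le_of_forall_gt_imp_ge_of_dense fun t ht => ?_
  have ht0 : 0 < t := lt_of_le_of_lt (mul_nonneg (inv_pos.2 hδ).le (apply_nonneg q z)) ht
  have hn : ‖((t⁻¹ : ℝ) : ℂ)‖ = t⁻¹ := by simp [abs_of_pos ht0]
  have := h (((t⁻¹ : ℝ) : ℂ) • z) (by
    rw [map_smul_eq_mul, hn, inv_mul_lt_iff₀ ht0, mul_comm, ← inv_mul_lt_iff₀ hδ]; exact ht)
  rw [map_smul_eq_mul, hn, inv_mul_lt_iff₀ ht0, mul_one] at this
  exact this.le

lemma up_bound (p : Seminorm ℂ U) (hp : Continuous p) :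
    ∃ F C, 0 ≤ C ∧ ∀ z, p z ≤ C * qF F z := by
  obtain ⟨F, δ, hδ, h⟩ := up_nhds (ball_nhds hp one_pos)
  exact ⟨F, δ⁻¹, (inv_pos.2 hδ).le, scale (E := U) p (qF F) hδ h⟩

/-- seminorms of the opposite algebra -/
noncomputable def qO (F : Finset ℝ) : Seminorm ℂ Uᵐᵒᵖ :=
  Seminorm.comp (𝕜 := ℂ) (E := Uᵐᵒᵖ) (E₂ := U) (qF F) (opLinearEquiv ℂ (M := U)).symm.toLinearMap

lemma qO_apply (F : Finset ℝ) (z : Uᵐᵒᵖ) : qO F z = qF F z.unop := rfl

/-- seminorms of the enveloping algebra -/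
noncomputable def NF (F : Finset ℝ) : Seminorm ℂ (Env AA) := pN (qF F) (qO F)

lemma NF_tm (F : Finset ℝ) (x : U) (y : Uᵐᵒᵖ) : NF F (tm x y) ≤ qF F x * qF F y.unop :=
  pN_tm _ _ x y

lemma NF_cont (F : Finset ℝ) : Continuous (NF F) :=
  pN_cont (qF_cont F) ((qF_cont F).comp continuous_unop)

lemma NF_mono {F G : Finset ℝ} (h : F ⊆ G) (u : Env AA) : NF F u ≤ NF G u := by
  have := le_pN (qF G) (qO G) (NF F) zero_le_one (fun x y => (NF_tm F x y).trans (by
    rw [one_mul]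
    exact mul_le_mul (qF_mono h _) (qF_mono h _) (apply_nonneg _ _) (apply_nonneg _ _))) u
  rwa [one_mul] at this

lemma adm_bound (r : Seminorm ℂ (Env AA)) (hr : Adm _ _ r) :
    ∃ F C, 0 ≤ C ∧ ∀ u, r u ≤ C * NF F u := by
  classical
  obtain ⟨p, q, hp, hq, h⟩ := hr
  obtain ⟨F, C, hC, h1⟩ := up_bound p hp
  obtain ⟨G, D, hD, h2⟩ := up_bound (q.comp (opLinearEquiv ℂ).toLinearMap) (hq.comp continuous_op)
  refine ⟨F ∪ G, C * D, mul_nonneg hC hD, le_pN _ _ r (mul_nonneg hC hD) fun x y => ?_⟩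
  have a1 := (h1 x).trans (mul_le_mul_of_nonneg_left (qF_mono Finset.subset_union_left
    (G := F ∪ G) x) hC)
  have a2 : q y ≤ _ := (h2 y.unop).trans (mul_le_mul_of_nonneg_left
    (qF_mono Finset.subset_union_right (G := F ∪ G) y.unop) hD)
  refine (h x y).trans ((mul_le_mul a1 a2 (apply_nonneg _ _)
    (mul_nonneg hC (apply_nonneg _ _))).trans (le_of_eq ?_))
  rw [qO_apply]; ring

lemma env_nhds {W : Set (Env AA)} (hW : W ∈ 𝓝 0) : ∃ F δ, 0 < δ ∧ ∀ u, NF F u < δ → u ∈ W := by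
  classical
  obtain ⟨⟨s, ε⟩, hε, hs⟩ := PT_with.hasBasis_zero_ball.mem_iff.1 hW
  choose F C hC h using fun r : AdmS U Uᵐᵒᵖ => adm_bound r.1 r.2
  have hS : 0 < ∑ r ∈ s, C r + 1 := by
    have := Finset.sum_nonneg fun r (_ : r ∈ s) => hC r
    linarith
  refine ⟨s.biUnion F, ε / (∑ r ∈ s, C r + 1), div_pos hε hS, fun u hu => hs ?_⟩
  rw [Seminorm.mem_ball_zero]
  refine Seminorm.finset_sup_apply_lt hε fun r hr => ?_
  have h1 := NF_mono (Finset.subset_biUnion_of_mem F hr) u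
  have h2 := Finset.single_le_sum (f := C) (fun r _ => hC r) hr
  rw [lt_div_iff₀ hS] at hu
  have h3 := apply_nonneg (NF (F r)) u
  have h4 : fam _ _ r u ≤ _ := h r u
  nlinarith [hC r]

lemma tm_mul (a c : U) (b d : Uᵐᵒᵖ) : (tm a b : Env AA) * tm c d = tm (a * c) (b * d) :=
  Algebra.TensorProduct.tmul_mul_tmul a c b d

lemma tm_one : (tm 1 1 : Env AA) = 1 := rfl

instance : IsScalarTower ℂ (Env AA) (Env AA) :=
  ⟨fun c u v => smul_mul_assoc (β := U ⊗[ℂ] Uᵐᵒᵖ) c u v⟩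

instance : SMulCommClass ℂ (Env AA) (Env AA) :=
  ⟨fun c u v => (mul_smul_comm (β := U ⊗[ℂ] Uᵐᵒᵖ) c u v).symm⟩

lemma NF_mul (F : Finset ℝ) (u v : Env AA) : NF F (u * v) ≤ NF F u * NF F v := by
  refine le_pN _ _ ((NF F).comp (LinearMap.mulLeft ℂ u)) (apply_nonneg _ _) (fun c d => ?_) v
  rw [mul_comm]
  refine le_pN _ _ ((NF F).comp (LinearMap.mulRight ℂ (tm c d : Env AA)))
    (mul_nonneg (apply_nonneg _ _) (apply_nonneg _ _)) (fun a b => ?_) u
  show NF F (tm a b * tm c d) ≤ _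
  rw [tm_mul]
  refine (NF_tm _ _ _).trans ((mul_le_mul (qF_mul F _ _) (qF_mul F d.unop b.unop)
    (apply_nonneg _ _) (mul_nonneg (apply_nonneg _ _) (apply_nonneg _ _))).trans (le_of_eq ?_))
  rw [qO_apply, qO_apply]; ring

lemma env_tendsto {ι : Type} {l : Filter ι} {f : ι → Env AA}
    (h : ∀ F, Tendsto (fun i => NF F (f i)) l (𝓝 0)) : Tendsto f l (𝓝 0) := fun W hW => by
  obtain ⟨F, δ, hδ, hF⟩ := env_nhds hW
  rw [Filter.mem_map]
  filter_upwards [(h F).eventually (gt_mem_nhds hδ)] with i hi using hF _ hi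

lemma NF_t0 (F : Finset ℝ) : Tendsto (NF F) (𝓝 0) (𝓝 0) := (NF_cont F).tendsto' 0 0 (map_zero _)

instance : IsTopologicalRing (Env AA) := by
  refine IsTopologicalRing.of_addGroup_of_nhds_zero (env_tendsto fun F => ?_)
    (fun x => env_tendsto fun F => ?_) (fun x => env_tendsto fun F => ?_)
  · refine squeeze_zero (fun _ => apply_nonneg _ _) (fun z => NF_mul F z.1 z.2) ?_
    simpa using ((NF_t0 F).comp tendsto_fst).mul ((NF_t0 F).comp tendsto_snd)
  · refine squeeze_zero (fun _ => apply_nonneg _ _) (fun z => NF_mul F x z) ?_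
    simpa using (NF_t0 F).const_mul (NF F x)
  · refine squeeze_zero (fun _ => apply_nonneg _ _) (fun z => NF_mul F z x) ?_
    simpa using (NF_t0 F).mul_const (NF F x)

lemma pi_tm (a : U) (b : Uᵐᵒᵖ) : piAlg AA (tm a b) = a * b.unop := rfl

lemma pi_le (F : Finset ℝ) (u : Env AA) : qF F (piAlg AA u) ≤ NF F u := by
  have := le_pN (qF F) (qO F) ((qF F).comp (piAlg AA)) zero_le_one
    (fun x y => by rw [one_mul]; exact qF_mul F x y.unop) u
  rwa [one_mul] at this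

lemma pi_cont : Continuous (piAlg AA) := by
  refine continuous_of_continuousAt_zero (piAlg AA) ?_
  rw [ContinuousAt, map_zero]
  intro W hW
  obtain ⟨F, δ, hδ, hF⟩ := up_nhds hW
  rw [Filter.mem_map]
  filter_upwards [ball_nhds (NF_cont F) hδ] with u hu using hF _ ((pi_le F u).trans_lt hu)

end Pool.Agent.H.MP_09c931_an
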