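import Pool.Agent.H.MP_09c931_an.C

namespace Pool.Agent.H.MP_09c931_an

open Topology UniformSpace Filter TensorProduct Set MulOpposite

lemma inv_bound (F : Finset ℝ) {g : U} (hg : g * g = 1) : qF F g ≤ 1 + 2 * F.card := by
  have h := congrArg co hg
  rw [co_mul, co_one, Prod.mk.injEq] at h
  have h1 : ‖(co g).1‖ = 1 := by
    have := congrArg norm h.1
    rw [norm_mul, norm_one] at this
    nlinarith [norm_nonneg (co g).1]
  have h2 : ∀ d ∈ F, ‖(co g).2 d‖ ≤ 2 := fun d _ => B.norm_le _ zero_le_two fun n => by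
    have e : (co g).1 * ((co g).2 d).v n + (co g).1 * ((co g).2 d).v n +
        ((co g).2 d).v n * ((co g).2 d).v n = 0 := congrArg (fun a : AA => (a d).v n) h.2
    by_cases h0 : ((co g).2 d).v n = 0
    · simp [h0]
    · have : ((co g).2 d).v n = -2 * (co g).1 := by
        apply mul_left_cancel₀ h0
        linear_combination e
      rw [this, norm_mul, h1]; simp
  have := Finset.sum_le_card_nsmul F _ 2 h2
  rw [qF_apply, h1]
  simp only [nsmul_eq_mul] at this
  linarith

lemma env_comm (u v : Env AA) : u * v = v * u := by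
  induction u using PT_ind with
  | h0 => simp
  | h2 u w hu hw => rw [add_mul, mul_add, hu, hw]
  | h1 a b =>
    induction v using PT_ind with
    | h0 => simp
    | h2 u w hu hw => rw [add_mul, mul_add, hu, hw]
    | h1 c d =>
      rw [tm_mul, tm_mul, U_comm a c]
      congr 1
      exact unop_injective (U_comm _ _)

/-- left embedding -/
noncomputable def LL : U →ₗ[ℂ] Env AA := (TensorProduct.mk ℂ U Uᵐᵒᵖ).flip 1

/-- right embedding -/
noncomputable def RR : U →ₗ[ℂ] Env AA :=
  (TensorProduct.mk ℂ U Uᵐᵒᵖ 1).comp (opLinearEquiv ℂ (M := U)).toLinearMap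

/-- the commutator element -/
noncomputable def cm : U →ₗ[ℂ] Env AA := RR - LL

lemma cm_apply (b : U) : cm b = tm 1 (op b) - tm b 1 := rfl

lemma cm_le (F : Finset ℝ) (b : U) : NF F (cm b) ≤ 2 * qF F b := by
  have h1 := NF_tm F 1 (op b)
  have h2 := NF_tm F b 1
  rw [unop_one, qF_one] at h2
  rw [MulOpposite.unop_op, qF_one] at h1
  have := map_sub_le_add (NF F) (tm 1 (op b)) (tm b 1)
  rw [cm_apply]
  linarith

lemma exists_diag (S : Finset {g : U // g * g = 1}) : ∃ m : Env AA,
    (∀ g : U, g * g = 1 → piAlg AA (tm g (op g) * m) = 1 ∧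
      ∀ F, NF F (tm g (op g) * m) ≤ (1 + 2 * F.card) ^ 2) ∧ ∀ h ∈ S, cm h.1 * m = 0 := by
  classical
  induction S using Finset.induction_on with
  | empty =>
    refine ⟨1, fun g hg => ⟨by rw [mul_one]; exact hg, fun F => ?_⟩, by simp⟩
    rw [mul_one, sq]
    exact (NF_tm F _ _).trans (mul_le_mul (inv_bound F hg) (inv_bound F hg) (apply_nonneg _ _)
      (by positivity))
  | insert h S _ ih =>
    obtain ⟨m, h1, h2⟩ := ih
    refine ⟨(1 / 2 : ℂ) • ((1 + tm h.1 (op h.1)) * m), fun g hg => ?_, fun k hk => ?_⟩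
    · have hgh : g * h.1 * (g * h.1) = 1 := by
        rw [mul_assoc, U_comm g h.1, ← mul_assoc h.1, h.2, one_mul, hg]
      have e : (tm g (op g) : Env AA) * ((1 / 2 : ℂ) • ((1 + tm h.1 (op h.1)) * m)) =
          (1 / 2 : ℂ) • (tm g (op g) * m + tm (g * h.1) (op (g * h.1)) * m) := by
        rw [mul_smul_comm, ← mul_assoc, mul_add, mul_one, tm_mul, add_mul, ← op_mul, U_comm h.1 g]
      rw [e]
      refine ⟨?_, fun F => ?_⟩
      · rw [map_smul, map_add, (h1 g hg).1, (h1 _ hgh).1, ← two_smul ℂ, smul_smul]; norm_num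
      · have := map_add_le_add (NF F) (tm g (op g) * m) (tm (g * h.1) (op (g * h.1)) * m)
        rw [map_smul_eq_mul]
        have e2 : ‖(1 / 2 : ℂ)‖ = 1 / 2 := by simp
        rw [e2]
        linarith [(h1 g hg).2 F, (h1 _ hgh).2 F]
    · rw [mul_smul_comm, ← mul_assoc]
      rcases Finset.mem_insert.1 hk with rfl | hk
      · have : cm k.1 * (1 + tm k.1 (op k.1)) = 0 := by
          rw [cm_apply, mul_add, mul_one, sub_mul, tm_mul, tm_mul, ← op_mul, k.2, one_mul, one_mul,
            op_one]
          abel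
        rw [this, zero_mul, smul_zero]
      · rw [env_comm (cm k.1), mul_assoc, h2 k hk, mul_zero, smul_zero]

/-- the approximate diagonal -/
noncomputable def mS (S : Finset {g : U // g * g = 1}) : Env AA := (exists_diag S).choose

lemma mS_pi (S) : piAlg AA (mS S) = 1 := by
  simpa [tm_one, mS] using ((exists_diag S).choose_spec.1 1 (one_mul 1)).1

lemma mS_le (S) (F : Finset ℝ) : NF F (mS S) ≤ (1 + 2 * F.card) ^ 2 := by
  simpa [tm_one, mS] using ((exists_diag S).choose_spec.1 1 (one_mul 1)).2 F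

lemma mS_span {b : U} (hb : b ∈ Submodule.span ℂ {g : U | g * g = 1}) :
    ∀ᶠ S in atTop, cm b * mS S = 0 := by
  induction hb using Submodule.span_induction with
  | mem g hg =>
    filter_upwards [eventually_ge_atTop {⟨g, hg⟩}] with S hS
    exact (exists_diag S).choose_spec.2 ⟨g, hg⟩ (hS (Finset.mem_singleton_self _))
  | zero => simp
  | add x y _ _ hx hy =>
    filter_upwards [hx, hy] with S h1 h2
    rw [map_add, add_mul, h1, h2, add_zero]
  | smul c x _ hx =>
    filter_upwards [hx] with S h1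
    rw [map_smul, smul_mul_assoc, h1, smul_zero]

/-- inclusion of one factor -/
noncomputable def JJ (d : ℝ) : B →ₗ[ℂ] U :=
  (Unitization.inrHom ℂ ℂ AA).comp (LinearMap.single ℂ (fun _ : ℝ => B) d)

lemma co_JJ (d : ℝ) (a : B) : co (JJ d a) = (0, Pi.single d a) := rfl

lemma JJ_mul (d : ℝ) (a b : B) : JJ d a * JJ d b = JJ d (a * b) := co_inj <| by
  simp [co_mul, co_JJ, Pi.single_mul]

lemma JJ_span (d : ℝ) {s : B} (hs : s ∈ Submodule.span ℂ {e : B | e * e = e}) :
    JJ d s ∈ Submodule.span ℂ {g : U | g * g = 1} := by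
  induction hs using Submodule.span_induction with
  | mem e he =>
    have h1 : JJ d e * JJ d e = JJ d e := by rw [JJ_mul, he]
    have h2 : (1 - (JJ d e + JJ d e)) * (1 - (JJ d e + JJ d e)) = 1 := by
      simp only [mul_sub, sub_mul, mul_add, add_mul, h1, mul_one, one_mul]; abel
    have h3 : JJ d e = (1 / 2 : ℂ) • (1 - (1 - (JJ d e + JJ d e))) := by
      rw [sub_sub_cancel, ← two_smul ℂ, smul_smul]; norm_num
    rw [h3]
    exact Submodule.smul_mem _ _ (sub_mem (Submodule.subset_span (one_mul 1))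
      (Submodule.subset_span h2))
  | zero => simp
  | add x y _ _ hx hy => rw [map_add]; exact add_mem hx hy
  | smul c x _ hx => rw [map_smul]; exact Submodule.smul_mem _ _ hx

lemma U_dense (b : U) (F : Finset ℝ) {ε : ℝ} (hε : 0 < ε) :
    ∃ b' ∈ Submodule.span ℂ {g : U | g * g = 1}, qF F (b - b') ≤ ε := by
  have hε' : 0 < ε / (F.card + 1) := by positivity
  choose s hs h using fun d => dense_idem ((co b).2 d) hε'
  refine ⟨(co b).1 • 1 + ∑ d ∈ F, JJ d (s d), add_mem (Submodule.smul_mem _ _
    (Submodule.subset_span (one_mul 1))) (sum_mem fun d _ => JJ_span d (hs d)), ?_⟩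
  have h1 : ∀ d ∈ F, ‖(co (b - ((co b).1 • 1 + ∑ d ∈ F, JJ d (s d)))).2 d‖ ≤ ε / (F.card + 1) :=
    fun d hd => by
      refine le_of_eq_of_le ?_ (h d).le
      simp [co_one, co_JJ, Prod.snd_sum, Finset.sum_apply, Pi.single_apply, hd]
  have h2 := Finset.sum_le_card_nsmul F _ _ h1
  have h3 : (co (b - ((co b).1 • 1 + ∑ d ∈ F, JJ d (s d)))).1 = 0 := by
    simp [co_one, co_JJ, Prod.fst_sum]
  rw [qF_apply, h3, norm_zero, zero_add]
  refine h2.trans ?_
  rw [nsmul_eq_mul, ← mul_div_assoc, div_le_iff₀ (by positivity)]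
  nlinarith

lemma cm_tendsto (b : U) (F : Finset ℝ) : Tendsto (fun S => NF F (cm b * mS S)) atTop (𝓝 0) := by
  rw [NormedAddGroup.tendsto_nhds_zero]
  intro ε hε
  have hc : (0 : ℝ) < (1 + 2 * F.card) ^ 2 := by positivity
  obtain ⟨b', hb', h⟩ := U_dense b F (show 0 < ε / (3 * (1 + 2 * F.card) ^ 2) by positivity)
  filter_upwards [mS_span hb'] with S hS
  have e : cm b * mS S = cm (b - b') * mS S := by rw [map_sub, sub_mul, hS, sub_zero]
  rw [Real.norm_of_nonneg (apply_nonneg _ _), e]
  have h1 := (NF_mul F (cm (b - b')) (mS S)).trans (mul_le_mul (cm_le F _) (mS_le S F)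
    (apply_nonneg _ _) (mul_nonneg zero_le_two (apply_nonneg _ _)))
  rw [le_div_iff₀ (by positivity)] at h
  nlinarith [mul_nonneg (apply_nonneg (qF F) (b - b')) hc.le]

lemma LL_apply (a : U) : LL a = tm a 1 := rfl

lemma diag_tendsto (y : Env AA) (F : Finset ℝ) :
    Tendsto (fun S => NF F ((y - LL (piAlg AA y)) * mS S)) atTop (𝓝 0) := by
  induction y using PT_ind with
  | h0 => simp
  | h1 a b =>
    have e : (tm a b : Env AA) - LL (piAlg AA (tm a b)) = tm a 1 * cm b.unop := by
      rw [cm_apply, mul_sub, tm_mul, tm_mul, pi_tm, LL_apply, mul_one, one_mul, one_mul,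
        MulOpposite.op_unop]
    refine squeeze_zero (fun _ => apply_nonneg _ _) (fun S => ?_)
      (by simpa using (cm_tendsto b.unop F).const_mul (NF F (tm a 1)))
    rw [e, mul_assoc]
    exact NF_mul F _ _
  | h2 u v hu hv =>
    refine squeeze_zero (fun _ => apply_nonneg _ _) (fun S => ?_) (by simpa using hu.add hv)
    rw [map_add, map_add, add_sub_add_comm, add_mul]
    exact map_add_le_add _ _ _

lemma piHat_coe (y : Env AA) : piHat AA y = piAlg AA y := ext_coe _ pi_cont y

instance : UniformContinuousConstSMul ℂ (Env AA) :=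
  uniformContinuousConstSMul_of_continuousConstSMul _ _

/-- the embedding into the completion -/
noncomputable def toC : Env AA →L[ℂ] Completion (Env AA) where
  toFun := (↑)
  map_add' := Completion.coe_add
  map_smul' := Completion.coe_smul
  cont := Completion.continuous_coe _

lemma kill {x : Completion (Env AA)} (hx : piHat AA x = 0) :
    Tendsto (fun S => x * (mS S : Completion (Env AA))) atTop (𝓝 0) := by
  refine (closed_nhds_basis (0 : Completion (Env AA))).tendsto_right_iff.2 fun W ⟨hW, hWc⟩ => ?_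
  obtain ⟨F, δ, hδ, hF⟩ := env_nhds ((Completion.continuous_coe (Env AA)).continuousAt.preimage_mem_nhds
    (t := W) (by rwa [Completion.coe_zero]))
  have hc : (0 : ℝ) < (1 + 2 * F.card) ^ 2 := by positivity
  set η := δ / (3 * (1 + 2 * F.card) ^ 2) with hη
  have hη0 : 0 < η := by positivity
  have hηδ : 3 * (η * (1 + 2 * F.card) ^ 2) = δ := by rw [hη]; field_simp
  obtain ⟨w, hw⟩ := approx (NF_cont F) x hη0
  have h1 : qF F (piHat AA x - piAlg AA w) ∈ Iic η :=
    pass (f := fun ξ => qF F (piHat AA ξ - piAlg AA w))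
      ((qF_cont F).comp (Completion.continuous_extension.sub continuous_const)) isClosed_Iic hw
      fun y hy => by
        rw [piHat_coe, ← map_sub]
        exact ((pi_le F _).trans_lt hy).le
  rw [hx, zero_sub, map_neg_eq_map, mem_Iic] at h1
  filter_upwards [(diag_tendsto w F).eventually (gt_mem_nhds (show 0 < δ / 3 by positivity))]
    with S hS
  refine pass (f := fun ξ => ξ * (mS S : Completion (Env AA))) (continuous_id.mul continuous_const)
    hWc hw fun y hy => ?_
  rw [← Completion.coe_mul]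
  refine hF _ ?_
  have e : y * mS S = (y - w) * mS S + ((w - LL (piAlg AA w)) * mS S + LL (piAlg AA w) * mS S) := by
    rw [← add_mul, ← add_mul]; congr 1; abel
  have a1 := (NF_mul F (y - w) (mS S)).trans (mul_le_mul (le_of_lt hy) (mS_le S F)
    (apply_nonneg _ _) hη0.le)
  have a0 : NF F (LL (piAlg AA w)) ≤ η := by
    have := NF_tm F (piAlg AA w) 1
    rw [unop_one, qF_one, mul_one] at this
    exact this.trans h1
  have a2 := (NF_mul F (LL (piAlg AA w)) (mS S)).trans (mul_le_mul a0 (mS_le S F)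
    (apply_nonneg _ _) hη0.le)
  have a3 := map_add_le_add (NF F) ((w - LL (piAlg AA w)) * mS S) (LL (piAlg AA w) * mS S)
  have a4 := map_add_le_add (NF F) ((y - w) * mS S)
    ((w - LL (piAlg AA w)) * mS S + LL (piAlg AA w) * mS S)
  rw [e]
  linarith

lemma AA_brai : HasBRAI AA := by
  classical
  refine ⟨Finset {g : U // g * g = 1}, inferInstance, inferInstance, inferInstance,
    fun S => toC (1 - mS S), fun S => ?_, ?_, fun x hx => ?_⟩
  · show piHat AA ((1 - mS S : Env AA) : Completion (Env AA)) = 0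
    rw [piHat_coe, map_sub, mS_pi, ← tm_one, pi_tm, unop_one, mul_one, sub_self]
  · have : Bornology.IsVonNBounded ℂ (range fun S => (1 - mS S : Env AA)) := by
      refine PT_with.isVonNBounded_iff_seminorm_bddAbove.2 fun r => ?_
      obtain ⟨F, C, hC, h⟩ := adm_bound r.1 r.2
      refine ⟨C * (NF F 1 + (1 + 2 * F.card) ^ 2), ?_⟩
      rintro _ ⟨_, ⟨S, rfl⟩, rfl⟩
      exact (h _).trans (mul_le_mul_of_nonneg_left ((map_sub_le_add _ _ _).trans
        (add_le_add le_rfl (mS_le S F))) hC)
    have := this.image toC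
    rwa [← range_comp] at this
  · have e : ∀ S, x * toC (1 - mS S) = x - x * (mS S : Completion (Env AA)) := fun S => by
      show x * ((1 - mS S : Env AA) : Completion (Env AA)) = _
      rw [Completion.coe_sub, Completion.coe_one, mul_sub, mul_one]
    show Tendsto (fun S => x * toC (1 - mS S)) atTop (𝓝 x)
    simp only [e]
    simpa using (kill hx).const_sub x

end Pool.Agent.H.MP_09c931_an
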