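import Mathlib

namespace Pool.Agent.H.MP_09c931_an

open Topology UniformSpace Filter TensorProduct

/-- complete Hausdorff locally convex complex space -/
def CLC (E : Type) [AddCommGroup E] [Module ℂ E] [UniformSpace E] : Prop :=
  IsUniformAddGroup E ∧ PolynormableSpace ℂ E ∧ CompleteSpace E ∧ T2Space E

section PT

variable (E F : Type) [AddCommGroup E] [Module ℂ E] [AddCommGroup F] [Module ℂ F]

/-- the algebraic tensor product, to carry the projective topology -/
def PT : Type := E ⊗[ℂ] F

noncomputable instance : AddCommGroup (PT E F) := inferInstanceAs (AddCommGroup (E ⊗[ℂ] F))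

noncomputable instance : Module ℂ (PT E F) := inferInstanceAs (Module ℂ (E ⊗[ℂ] F))

variable {E F} in
/-- elementary tensor in `PT` -/
def tm (x : E) (y : F) : PT E F := (x ⊗ₜ[ℂ] y : E ⊗[ℂ] F)

variable {E F} in
/-- domination on elementary tensors -/
def Dom (r : PT E F → ℝ) (p : E → ℝ) (q : F → ℝ) : Prop := ∀ x y, r (tm x y) ≤ p x * q y

variable [TopologicalSpace E] [TopologicalSpace F]

/-- seminorms on the tensor product dominated by a product of continuous seminorms -/
def Adm (r : PT E F → ℝ) : Prop :=
  ∃ (p : Seminorm ℂ E) (q : Seminorm ℂ F), Continuous p ∧ Continuous q ∧ Dom r p q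

/-- the type of all such seminorms -/
abbrev AdmS : Type := {r : Seminorm ℂ (PT E F) // Adm E F r}

/-- all such seminorms -/
def fam : SeminormFamily ℂ (PT E F) (AdmS E F) := Subtype.val

/-- the projective topology -/
noncomputable instance : TopologicalSpace (PT E F) := (fam E F).moduleFilterBasis.topology

instance : IsTopologicalAddGroup (PT E F) :=
  (WithSeminorms.mk (p := fam E F) rfl).topologicalAddGroup

noncomputable instance : UniformSpace (PT E F) := IsTopologicalAddGroup.rightUniformSpace _

end PT

section Alg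

variable (A : Type) [NonUnitalRing A] [Module ℂ A] [IsScalarTower ℂ A A] [SMulCommClass ℂ A A]

/-- the unitization -/
def Up : Type := Unitization ℂ A

noncomputable instance : Ring (Up A) := inferInstanceAs (Ring (Unitization ℂ A))

noncomputable instance : Algebra ℂ (Up A) := inferInstanceAs (Algebra ℂ (Unitization ℂ A))

/-- the algebraic enveloping algebra -/
abbrev Env : Type := PT (Up A) (Up A)ᵐᵒᵖ

/-- the product of a tensor product of algebras -/
noncomputable def tMul (R S : Type) [Ring R] [Algebra ℂ R] [Ring S] [Algebra ℂ S]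
    (u v : R ⊗[ℂ] S) : R ⊗[ℂ] S := u * v

/-- the product of the enveloping algebra -/
noncomputable def envMul : Env A → Env A → Env A := tMul (Up A) (Up A)ᵐᵒᵖ

/-- `a ⊗ b ↦ a b` -/
noncomputable def piAlg : Env A →ₗ[ℂ] Up A :=
  TensorProduct.lift ((LinearMap.mul ℂ (Up A)).compl₂ (MulOpposite.opLinearEquiv ℂ).symm.toLinearMap)

variable [UniformSpace A]

/-- the product uniform structure of `ℂ × A` -/
noncomputable instance : UniformSpace (Up A) :=
  UniformSpace.comap (fun z : Unitization ℂ A => (z.fst, z.snd)) inferInstance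

/-- Arens–Michael algebra -/
def ArensMichael : Prop :=
  CLC A ∧ ContinuousMul A ∧ ∃ (ι : Type) (p : SeminormFamily ℂ A ι), WithSeminorms p ∧
    ∀ i a b, p i (a * b) ≤ p i a * p i b

/-- the product map on the completed enveloping algebra -/
noncomputable def piHat : Completion (Env A) → Up A := Completion.extension (piAlg A)

/-- extension by continuity of a binary operation to the completion -/
noncomputable def cMul {G : Type} [UniformSpace G] (m : G → G → G) :
    Completion G → Completion G → Completion G :=
  Function.curry ((Completion.isDenseInducing_coe.prodMap Completion.isDenseInducing_coe).extend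
    ((↑) ∘ Function.uncurry m))

/-- `I` has a bounded right approximate identity for the product `m` -/
def BRAI {R : Type} [Zero R] [SMul ℂ R] [TopologicalSpace R] (m : R → R → R) (I : Set R) : Prop :=
  ∃ (ι : Type) (_ : Preorder ι), Nonempty ι ∧ IsDirectedOrder ι ∧
    ∃ e : ι → R, (∀ i, e i ∈ I) ∧ Bornology.IsVonNBounded ℂ (Set.range e) ∧
      ∀ x ∈ I, Tendsto (fun i => m x (e i)) atTop (𝓝 x)

/-- the zero set of `f` has a bounded right approximate identity -/
def KerBRAI {G H : Type} [Zero G] [UniformSpace G] [SMul ℂ G] [Zero H] (m : G → G → G)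
    (f : Completion G → H) : Prop := BRAI (cMul m) {x | f x = 0}

/-- the diagonal ideal has a bounded right approximate identity -/
def HasBRAI : Prop := KerBRAI (envMul A) (piHat A)

variable {A} {X : Type} [AddCommGroup X] [Module ℂ X] [UniformSpace X]

/-- commuting jointly continuous left and right actions -/
def Acts {A X : Type} [Mul A] [TopologicalSpace A] [TopologicalSpace X] (l : A → X → X)
    (r : X → A → X) : Prop :=
  (∀ a b x, l (a * b) x = l a (l b x)) ∧ (∀ x a b, r x (a * b) = r (r x a) b) ∧
    (∀ a x b, l a (r x b) = r (l a x) b) ∧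
    Continuous (fun z : A × X => l z.1 z.2) ∧ Continuous (fun z : X × A => r z.1 z.2)

/-- bilinear actions making a topological bimodule -/
def IsBimod (l : A →ₗ[ℂ] X →ₗ[ℂ] X) (r : X →ₗ[ℂ] A →ₗ[ℂ] X) : Prop :=
  Acts (fun a x => l a x) (fun x a => r x a)

/-- `x ⊗ a ↦ x a - a x` on the algebraic tensor product -/
noncomputable def dAlg (l : A →ₗ[ℂ] X →ₗ[ℂ] X) (r : X →ₗ[ℂ] A →ₗ[ℂ] X) : PT X A →ₗ[ℂ] X :=
  TensorProduct.lift (r - l.flip)

/-- the first differential of the standard homology complex -/
noncomputable def d0 (l : A →ₗ[ℂ] X →ₗ[ℂ] X) (r : X →ₗ[ℂ] A →ₗ[ℂ] X) :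
    Completion (PT X A) → X := Completion.extension (dAlg l r)

variable (A) in
/-- the zeroth homology is Hausdorff for every complete locally convex bimodule -/
def AllH0Hausdorff : Prop :=
  ∀ (X : Type) [AddCommGroup X] [Module ℂ X] [UniformSpace X], CLC X →
    ∀ (l : A →ₗ[ℂ] X →ₗ[ℂ] X) (r : X →ₗ[ℂ] A →ₗ[ℂ] X), IsBimod l r → IsClosed (Set.range (d0 l r))

end Alg

end Pool.Agent.H.MP_09c931_an
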