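import Pool.Agent.H.MP_09c931_an.D

namespace Pool.Agent.H.MP_09c931_an

open Topology UniformSpace Filter TensorProduct Set BoundedContinuousFunction

/-- small sets -/
abbrev SS : Type := {S : Set ℕ // S ∉ hyperfilter ℕ}

/-- singletons -/
def sg (k : ℕ) : SS := ⟨{k}, (finite_singleton k).notMem_hyperfilter⟩

/-- compatible families -/
def XS : Submodule ℂ (SS → ℕ →ᵇ ℂ) where
  carrier := {φ | ∀ S n, φ S n = ind S.1 n * φ (sg n) n}
  add_mem' := fun {φ ψ} h1 h2 S n => by
    simp only [Pi.add_apply, BoundedContinuousFunction.coe_add]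
    rw [h1 S n, h2 S n, mul_add]
  zero_mem' := fun S n => by simp
  smul_mem' := fun c φ h S n => by
    simp only [Pi.smul_apply, BoundedContinuousFunction.coe_smul, smul_eq_mul]
    rw [h S n]; ring

lemma XS_closed : IsClosed (XS : Set (SS → ℕ →ᵇ ℂ)) := by
  have : (XS : Set (SS → ℕ →ᵇ ℂ)) = ⋂ S, ⋂ n, {φ | φ S n = ind S.1 n * φ (sg n) n} := by
    ext φ; simp only [mem_iInter]; rfl
  rw [this]
  refine isClosed_iInter fun S => isClosed_iInter fun n => isClosed_eq ?_ (continuous_const.mul ?_)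
  · exact (continuous_eval_const n).comp (continuous_apply S)
  · exact (continuous_eval_const n).comp (continuous_apply (sg n))

/-- the module -/
def XX : Type := XS

noncomputable instance : AddCommGroup XX := inferInstanceAs (AddCommGroup XS)
noncomputable instance : Module ℂ XX := inferInstanceAs (Module ℂ XS)
noncomputable instance : UniformSpace XX := inferInstanceAs (UniformSpace XS)
instance : IsUniformAddGroup XX := inferInstanceAs (IsUniformAddGroup XS.toAddSubgroup)
instance : CompleteSpace XX := XS_closed.completeSpace_coe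
instance : T2Space XX := inferInstanceAs (T2Space XS)

lemma XX_clc : CLC XX :=
  ⟨inferInstance, inferInstanceAs (PolynormableSpace ℂ XS), inferInstance, inferInstance⟩

/-- a component -/
noncomputable def cp (S : SS) : XX →ₗ[ℂ] (ℕ →ᵇ ℂ) := (LinearMap.proj S).comp XS.subtype

lemma cp_cont (S : SS) : Continuous (cp S) := (continuous_apply S).comp continuous_subtype_val

lemma cp_eq (φ : XX) (S : SS) (n : ℕ) : cp S φ n = ind S.1 n * cp (sg n) φ n :=
  (Subtype.property φ : _ ∈ XS) S n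

lemma XX_ext {φ ψ : XX} (h : ∀ S, cp S φ = cp S ψ) : φ = ψ := Subtype.ext (funext h)

lemma XX_tendsto {ι : Type} {l : Filter ι} {f : ι → XX} {φ : XX}
    (h : ∀ S, Tendsto (fun i => cp S (f i)) l (𝓝 (cp S φ))) : Tendsto f l (𝓝 φ) :=
  tendsto_subtype_rng.2 (tendsto_pi_nhds.2 h)

lemma XX_cont {Z : Type} [TopologicalSpace Z] {f : Z → XX} (h : ∀ S, Continuous fun z => cp S (f z)) :
    Continuous f := continuous_iff_continuousAt.2 fun z => XX_tendsto fun S => (h S).tendsto z

/-- the action on elements -/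
noncomputable def act (a : AA) (φ : XX) : XX :=
  (⟨fun S => (a 0).v * cp S φ, fun S n => by
    simp only [BoundedContinuousFunction.coe_mul, Pi.mul_apply]
    rw [cp_eq φ S n]; ring⟩ : XS)

lemma cp_act (a : AA) (φ : XX) (S : SS) : cp S (act a φ) = (a 0).v * cp S φ := rfl

/-- the left action -/
noncomputable def lA : AA →ₗ[ℂ] XX →ₗ[ℂ] XX :=
  LinearMap.mk₂ ℂ act (fun a b φ => XX_ext fun S => by simp [cp_act, add_mul])
    (fun c a φ => XX_ext fun S => by simp [cp_act])
    (fun a φ ψ => XX_ext fun S => by simp [cp_act, mul_add])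
    (fun c a φ => XX_ext fun S => by simp [cp_act])

lemma cp_lA (a : AA) (φ : XX) (S : SS) : cp S (lA a φ) = (a 0).v * cp S φ := rfl

lemma v_cont : Continuous B.v := continuous_subtype_val

lemma XX_bimod : IsBimod lA 0 := by
  refine ⟨fun a b φ => XX_ext fun S => by simp [cp_lA, mul_assoc], by simp, by simp,
    XX_cont fun S => ?_, by simpa using continuous_const⟩
  exact (v_cont.comp ((continuous_apply 0).comp continuous_fst)).mul
    ((cp_cont S).comp continuous_snd)

/-- seminorms of the tensor product -/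
noncomputable def NS (S : SS) : Seminorm ℂ (PT XX AA) :=
  pN ((normSeminorm ℂ (ℕ →ᵇ ℂ)).comp (cp S)) ((normSeminorm ℂ B).comp (LinearMap.proj 0))

lemma NS_cont (S : SS) : Continuous (NS S) :=
  pN_cont (cp_cont S).norm (continuous_apply (A := fun _ : ℝ => B) 0).norm

lemma d_tm (φ : XX) (a : AA) : dAlg lA 0 (tm φ a) = -lA a φ := by
  show (0 - lA.flip) φ a = _
  simp

lemma d_cont : Continuous (dAlg lA 0) :=
  XX_cont fun S => cont_of_le ((cp S).comp (dAlg lA 0)) (NS_cont S) (norm_le_pN _ _ _ fun φ a => by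
    rw [LinearMap.comp_apply, d_tm, map_neg, norm_neg, cp_lA, mul_comm]
    exact norm_mul_le _ _)

/-- slices of a tensor -/
noncomputable def KK (s : ℕ) : PT XX AA →ₗ[ℂ] B :=
  TensorProduct.lift (LinearMap.mk₂ ℂ (fun φ a => cp (sg s) φ s • a 0)
    (fun _ _ _ => by simp [add_smul]) (fun _ _ _ => by simp [mul_smul])
    (fun _ _ _ => by simp) (fun c φ a => smul_comm _ c (a 0)))

lemma KK_tm (s : ℕ) (φ : XX) (a : AA) : KK s (tm φ a) = cp (sg s) φ s • a 0 := rfl

lemma val_le (φ : XX) {S : SS} {s : ℕ} (hs : s ∈ S.1) : ‖cp (sg s) φ s‖ ≤ ‖cp S φ‖ := by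
  have := (cp S φ).norm_coe_le_norm s
  rwa [cp_eq, ind_apply, indicator_of_mem hs, Pi.one_apply, one_mul] at this

lemma KK_le {S : SS} {s : ℕ} (hs : s ∈ S.1) (w : PT XX AA) : ‖KK s w‖ ≤ NS S w :=
  norm_le_pN _ _ _ (fun φ a => by
    rw [KK_tm, norm_smul]
    exact mul_le_mul_of_nonneg_right (val_le φ hs) (norm_nonneg _)) w

lemma KK_cont (s : ℕ) : Continuous (KK s) :=
  cont_of_le _ (NS_cont (sg s)) (KK_le (mem_singleton s))

lemma KK_diag (t : ℕ) (w : PT XX AA) : (KK t w).v t = -cp (sg t) (dAlg lA 0 w) t := by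
  induction w using PT_ind with
  | h0 => simp
  | h1 φ a => simp [KK_tm, d_tm, cp_lA, mul_comm]
  | h2 u v hu hv => simp [hu, hv, add_comm]

lemma KK_conv (S : SS) (s : ℕ → ℕ) (hs : ∀ k, s k ∈ S.1) (w : PT XX AA) :
    ∃ L, Tendsto (fun k => KK (s k) w) (hyperfilter ℕ) (𝓝 L) := by
  induction w using PT_ind with
  | h0 => exact ⟨0, by simp⟩
  | h1 φ a =>
    obtain ⟨c, -, hc⟩ := (isCompact_closedBall (0 : ℂ) ‖cp S φ‖).ultrafilter_le_nhds'
      ((hyperfilter ℕ).map fun k => cp (sg (s k)) φ (s k))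
      (Ultrafilter.mem_map.2 (univ_mem' fun k => mem_closedBall_zero_iff.2 (val_le φ (hs k))))
    exact ⟨c • a 0, Tendsto.smul_const hc _⟩
  | h2 u v hu hv =>
    obtain ⟨L, hL⟩ := hu
    obtain ⟨M, hM⟩ := hv
    exact ⟨L + M, by simpa using hL.add hM⟩

/-- the constant sequence one -/
noncomputable def one : XX :=
  (⟨fun S => ind S.1, fun S n => by simp [ind_apply, sg]⟩ : XS)

lemma cp_one (S : SS) : cp S one = ind S.1 := rfl

lemma d0_coe (w : PT XX AA) : d0 lA 0 w = dAlg lA 0 w := ext_coe _ d_cont w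

lemma one_mem : one ∈ closure (range (d0 lA 0)) := by
  haveI : Nonempty SS := ⟨sg 0⟩
  haveI : IsDirectedOrder SS := ⟨fun S T => ⟨⟨S.1 ∪ T.1, fun h =>
    (Ultrafilter.union_mem_iff.1 h).elim S.2 T.2⟩, subset_union_left, subset_union_right⟩⟩
  refine mem_closure_of_tendsto (b := (atTop : Filter SS))
    (f := fun T => lA (fun _ => chi T.1 T.2) one) (XX_tendsto fun S => ?_)
    (Eventually.of_forall fun T => ⟨(tm one (-fun _ => chi T.1 T.2) : PT XX AA), ?_⟩)
  · refine tendsto_const_nhds.congr' ?_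
    filter_upwards [eventually_ge_atTop S] with T hT
    ext n
    simp only [cp_lA, cp_one, BoundedContinuousFunction.coe_mul, Pi.mul_apply, chi_apply, ind_apply]
    by_cases h : n ∈ S.1
    · simp [h, hT h]
    · simp [h]
  · rw [d0_coe, d_tm, map_neg, LinearMap.neg_apply, neg_neg]

lemma one_not : one ∉ range (d0 lA 0) := by
  rintro ⟨ξ, hξ⟩
  set u : ℕ → B := fun s => Completion.extension (KK s) ξ with hu
  have hd : ∀ t, (u t).v t = -1 := fun t => by
    have : (u t).v t = -cp (sg t) (d0 lA 0 ξ) t := by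
      refine Completion.induction_on (p := fun ξ => (Completion.extension (KK t) ξ).v t =
        -cp (sg t) (d0 lA 0 ξ) t) ξ (isClosed_eq ?_ ?_) fun w => ?_
      · exact (continuous_eval_const t).comp (v_cont.comp Completion.continuous_extension)
      · exact ((continuous_eval_const t).comp ((cp_cont _).comp
          Completion.continuous_extension)).neg
      · rw [ext_coe _ (KK_cont t), d0_coe, KK_diag]
    rw [this, hξ, cp_one]
    simp [ind_apply, sg]
  obtain ⟨t, -, ht⟩ := exists_seq_of_forall_finset_exists (fun _ : ℕ => True)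
    (fun x y => ‖(u x).v y‖ < 1 / 4) (fun s _ => by
      have : ∀ᶠ y in (hyperfilter ℕ : Filter ℕ), ∀ x ∈ s, ‖(u x).v y‖ < 1 / 4 :=
        (eventually_all_finset s).2 fun x _ =>
          NormedAddGroup.tendsto_nhds_zero.1 (u x).tend _ (by norm_num)
      exact this.exists.imp fun y hy => ⟨trivial, hy⟩)
  have hne : ∀ i j, i < j → t i ≠ t j := fun i j h e => by
    have := ht i j h
    rw [e, hd] at this
    norm_num at this
  obtain ⟨b, hb⟩ : ∃ b, range (fun k => t (2 * k + b)) ∉ hyperfilter ℕ := by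
    by_contra hcon
    push Not at hcon
    obtain ⟨_, ⟨i, rfl⟩, j, hj⟩ := (hyperfilter ℕ).nonempty_of_mem (inter_mem (hcon 0) (hcon 1))
    rcases lt_or_gt_of_ne (show 2 * j + 1 ≠ 2 * i + 0 by omega) with h | h
    · exact hne _ _ h hj
    · exact hne _ _ h hj.symm
  obtain ⟨w, hw⟩ := approx (NS_cont ⟨_, hb⟩) ξ (show (0 : ℝ) < 1 / 8 by norm_num)
  have hc : ∀ k, ‖u (t (2 * k + b)) - KK (t (2 * k + b)) w‖ ∈ Iic (1 / 8 : ℝ) := fun k =>
    pass (f := fun ξ => ‖Completion.extension (KK (t (2 * k + b))) ξ - KK (t (2 * k + b)) w‖)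
      (Completion.continuous_extension.sub continuous_const).norm isClosed_Iic hw fun y hy => by
        rw [ext_coe _ (KK_cont _), ← map_sub]
        exact ((KK_le (S := ⟨_, hb⟩) (mem_range_self k) _).trans_lt hy).le
  obtain ⟨L, hL⟩ := KK_conv ⟨_, hb⟩ (fun k => t (2 * k + b)) mem_range_self w
  have hE := Metric.tendsto_nhds.1 hL (1 / 8) (by norm_num)
  obtain ⟨i, hi⟩ := hE.exists
  have hgt : ∀ᶠ j in (hyperfilter ℕ : Filter ℕ), i < j :=
    Nat.hyperfilter_le_atTop (eventually_gt_atTop i)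
  obtain ⟨j, hj, hij⟩ := (hE.and hgt).exists
  rw [dist_eq_norm] at hi hj
  have h1 := ht (2 * i + b) (2 * j + b) (by omega)
  have h2 : ‖u (t (2 * i + b)) - u (t (2 * j + b))‖ ≤ 1 / 2 := by
    have a1 := norm_sub_le_norm_sub_add_norm_sub (u (t (2 * i + b))) (KK (t (2 * i + b)) w)
      (u (t (2 * j + b)))
    have a2 := norm_sub_le_norm_sub_add_norm_sub (KK (t (2 * i + b)) w) L (u (t (2 * j + b)))
    have a3 := norm_sub_le_norm_sub_add_norm_sub L (KK (t (2 * j + b)) w) (u (t (2 * j + b)))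
    rw [norm_sub_rev L (KK _ w), norm_sub_rev (KK _ w) (u _)] at a3
    linarith [mem_Iic.1 (hc i), mem_Iic.1 (hc j)]
  have h3 := ((u (t (2 * i + b)) - u (t (2 * j + b))).norm_apply_le (t (2 * j + b))).trans h2
  rw [B.v_sub, BoundedContinuousFunction.coe_sub, Pi.sub_apply, hd] at h3
  have h4 := norm_sub_norm_le (-1 : ℂ) ((u (t (2 * i + b))).v (t (2 * j + b)))
  rw [norm_sub_rev, norm_neg, norm_one] at h4
  linarith

lemma AA_not : ¬ AllH0Hausdorff AA := fun h =>
  one_not ((h XX XX_clc lA 0 XX_bimod).closure_subset one_mem)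

end Pool.Agent.H.MP_09c931_an
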